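import Pool.Agent.H64.TSE.Free

/-!
# Exponentially many two-sided translates are needed

For every number `n ≥ 11` of cells the free group of countably infinite rank, and every group that
maps onto it, has a partition into `n` cells such that for no cell `C` the group is covered by
the two-sided translates `x C C⁻¹ y` with `(x, y)` in a finite set of pairs whose first
coordinates, and whose second coordinates, take at most `max n ((5 / 4) ^ n)` values.
-/

set_option autoImplicit false

namespace Pool.Agent.Results.MP_adca84_al.ExponentialLowerBound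

universe u

/-- The sets `A i`, `i : Fin n`, form a partition of `G` into `n` cells: every element of `G` lies
in exactly one of them. -/
def IsPartition {G : Type u} {n : ℕ} (A : Fin n → Set G) : Prop :=
  ∀ g : G, ∃! i : Fin n, g ∈ A i

/-- The two-sided translate `x C C⁻¹ y`, the set of all `x a b⁻¹ y` with `a` and `b` in `C`. -/
def translate {G : Type u} [Group G] (x : G) (C : Set G) (y : G) : Set G :=
  {g | ∃ a ∈ C, ∃ b ∈ C, g = x * (a * b⁻¹) * y}

theorem le_pow {n : ℕ} (hn : 11 ≤ n) : (n : ℝ) ≤ (5 / 4 : ℝ) ^ n := by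
  induction n, hn using Nat.le_induction with
  | base => norm_num
  | succ m hm ih =>
    have h : (11 : ℝ) ≤ m := by exact_mod_cast hm
    rw [pow_succ]
    push_cast
    linarith

/-- For every `n ≥ 11` and every group `G` that maps onto the free group of countably infinite
rank there is a partition of `G` into `n` cells such that for no cell `C` and no finite set `F` of
pairs, whose first coordinates take at most `max n ((5 / 4) ^ n)` values and whose second
coordinates take at most `max n ((5 / 4) ^ n)` values, the group is the union of the translates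
`x C C⁻¹ y` with `(x, y) ∈ F`. -/
theorem result (n : ℕ) (hn : 11 ≤ n) (G : Type u) [Group G]
    (hG : ∃ π : G →* FreeGroup ℕ, Function.Surjective π) :
    ∃ A : Fin n → Set G, IsPartition A ∧ ∀ (i : Fin n) (F : Set (G × G)), F.Finite →
      ((Prod.fst '' F).ncard : ℝ) ≤ max (n : ℝ) ((5 / 4 : ℝ) ^ n) →
      ((Prod.snd '' F).ncard : ℝ) ≤ max (n : ℝ) ((5 / 4 : ℝ) ^ n) →
      (⋃ p ∈ F, translate p.1 (A i) p.2) ≠ Set.univ := by
  classical
  obtain ⟨π, hπ⟩ := hG
  obtain ⟨c, hc⟩ := Pool.Agent.H64.TSE.exists_free_coloring hn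
  have hmax : max (n : ℝ) ((5 / 4 : ℝ) ^ n) = (5 / 4 : ℝ) ^ n := max_eq_right (le_pow hn)
  refine ⟨fun i => {g | c (π g)⁻¹ = i}, ?_, ?_⟩
  · intro g
    exact ⟨c (π g)⁻¹, rfl, fun j hj => hj.symm⟩
  · intro i F hF h1 h2 hcov
    rw [hmax] at h1 h2
    have e1 : (Prod.fst '' F).ncard = (hF.toFinset.image Prod.fst).card := by
      rw [← Set.ncard_coe_finset, Finset.coe_image, hF.coe_toFinset]
    have e2 : (Prod.snd '' F).ncard = (hF.toFinset.image Prod.snd).card := by
      rw [← Set.ncard_coe_finset, Finset.coe_image, hF.coe_toFinset]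
    rw [e1] at h1
    rw [e2] at h2
    have hX : (((hF.toFinset.image Prod.fst).image π).card : ℝ) ≤ (5 / 4 : ℝ) ^ n :=
      le_trans (by exact_mod_cast Finset.card_image_le) h1
    have hY : (((hF.toFinset.image Prod.snd).image (fun y => (π y)⁻¹)).card : ℝ) ≤
        (5 / 4 : ℝ) ^ n :=
      le_trans (by exact_mod_cast Finset.card_image_le) h2
    obtain ⟨g, hg⟩ := hc i _ _ hX hY
    obtain ⟨g', rfl⟩ := hπ g
    have hmem : g' ∈ ⋃ p ∈ F, translate p.1 {g | c (π g)⁻¹ = i} p.2 := by
      rw [hcov]; exact Set.mem_univ _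
    rw [Set.mem_iUnion₂] at hmem
    obtain ⟨p, hp, a, ha, b, hb, hab⟩ := hmem
    have hp' : p ∈ hF.toFinset := hF.mem_toFinset.mpr hp
    refine hg (π p.1) (Finset.mem_image_of_mem _ (Finset.mem_image_of_mem _ hp')) (π p.2)⁻¹
      (Finset.mem_image_of_mem (fun y => (π y)⁻¹) (Finset.mem_image_of_mem _ hp'))
      (π a)⁻¹ (π b)⁻¹ ?_ ⟨ha, hb⟩
    rw [hab]
    simp only [map_mul, map_inv, inv_inv]
    group

end Pool.Agent.Results.MP_adca84_al.ExponentialLowerBound
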